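import Pool.Agent.H18.TXB.Targets
import Pool.Agent.H36.BKH.GR4

/-!
# Backward heights: the growth conditions are satisfied at some scale (GRB)
-/

set_option autoImplicit false

namespace Pool.Agent.H21.TXB

open Pool.Agent.H18.TXB
open Pool.Agent.H36.BKH (gr4_lim)

theorem pf_GRB : T_GRB := by
  intro a Y e R Λ c ha hR _ hY he hec hgr hac
  have he0 : (0 : ℝ) < e := by exact_mod_cast he
  have hc0 : 0 < c := he0.trans hec
  have hR0 : (0 : ℝ) < R := by exact_mod_cast hR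
  -- remove the constant `R`
  obtain ⟨c₁, hec₁, hc₁⟩ := exists_between hec
  have hc₁0 : 0 < c₁ := he0.trans hec₁
  have hgr₁ : ∀ N, ∃ n ≥ N, c₁ ^ n ≤ (Y n : ℝ) := by
    intro N
    have h1 : 1 < c / c₁ := by rwa [one_lt_div hc₁0]
    obtain ⟨k, hk⟩ := pow_unbounded_of_one_lt (R : ℝ) h1
    obtain ⟨n, hn, h⟩ := hgr (N + k)
    refine ⟨n, by omega, ?_⟩
    have h2 : (R : ℝ) ≤ (c / c₁) ^ n := hk.le.trans (pow_le_pow_right₀ h1.le (by omega))
    have h3 : (R : ℝ) * c₁ ^ n ≤ c ^ n := by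
      calc (R : ℝ) * c₁ ^ n ≤ (c / c₁) ^ n * c₁ ^ n :=
            mul_le_mul_of_nonneg_right h2 (pow_pos hc₁0 n).le
        _ = c ^ n := by rw [← mul_pow, div_mul_cancel₀ _ hc₁0.ne']
    exact le_of_mul_le_mul_left (h3.trans h) hR0
  obtain ⟨L, hcL, hL⟩ := gr4_lim a Y c₁ ha hY hc₁0 hgr₁
  obtain ⟨ε, hε⟩ : ∃ ε, ε = Real.log e := ⟨_, rfl⟩
  have hε0 : 0 ≤ ε := by
    rw [hε]
    exact Real.log_nonneg (by exact_mod_cast he)
  have hεL : ε < L := by
    rw [hε]
    exact (Real.log_lt_log he0 hec₁).trans_le hcL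
  obtain ⟨δ, hδ⟩ : ∃ δ, δ = (L - ε) / 20 := ⟨_, rfl⟩
  have hδ0 : 0 < δ := by
    rw [hδ]
    linarith
  have hLe : L = ε + 20 * δ := by
    rw [hδ]
    ring
  obtain ⟨hlo, N1, hup⟩ := hL δ hδ0
  obtain ⟨N2, ha2⟩ := hac (Real.exp (ε + δ)) (by
    rw [Real.exp_add, hε, Real.exp_log he0]
    have : 1 < Real.exp δ := Real.one_lt_exp_iff.mpr hδ0
    nlinarith)
  obtain ⟨A, hA⟩ : ∃ A, A = Real.log (a 1) := ⟨_, rfl⟩
  have ha10 : (0 : ℝ) < a 1 := by exact_mod_cast ha 1
  have hA0 : 0 ≤ A := by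
    rw [hA]
    exact Real.log_nonneg (by exact_mod_cast ha 1)
  obtain ⟨B, hB0, hB⟩ : ∃ B : ℝ, 0 ≤ B ∧ (Λ : ℝ) ≤ Real.exp B :=
    ⟨Λ, Nat.cast_nonneg _, by linarith [Real.add_one_le_exp (Λ : ℝ)]⟩
  obtain ⟨k, hk⟩ := exists_nat_ge ((B + 1 + 4 * A) / δ)
  obtain ⟨n, hn, hYn⟩ := hlo (2 * (N1 + N2 + k + 1))
  obtain ⟨m, hm⟩ : ∃ m, m = n / 2 := ⟨_, rfl⟩
  have hmk : N1 + N2 + k + 1 ≤ m := by omega
  have hm1 : 1 ≤ m := by omega
  have hmδ : B + 1 + 4 * A ≤ δ * m := by
    have h1 : (k : ℝ) ≤ m := by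
      have : k ≤ m := by omega
      exact_mod_cast this
    have h2 : (B + 1 + 4 * A) / δ ≤ (m : ℝ) := hk.trans h1
    rw [div_le_iff₀ hδ0] at h2
    linarith
  have hm0 : (0 : ℝ) ≤ m := Nat.cast_nonneg m
  have hmε : 0 ≤ ε * m := mul_nonneg hε0 hm0
  have hem : ((e : ℝ)) ^ m = Real.exp (ε * m) := by
    rw [hε, mul_comm, Real.exp_nat_mul, Real.exp_log he0]
  have ham : (a m : ℝ) ≤ Real.exp ((ε + δ) * m) := by
    have h := (ha2 m (by omega)).le
    rwa [← Real.exp_nat_mul, mul_comm] at h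
  have hYm : (Y m : ℝ) ≤ Real.exp ((L + δ) * m) := (hup m (by omega)).le
  -- lower bound at `2 m`
  have hlow : Real.exp (2 * ((L - δ) * m) - 2 * A) ≤ (Y (m + m) : ℝ) := by
    have hLδ : 0 ≤ L - δ := by rw [hLe]; linarith
    rcases Nat.even_or_odd' n with ⟨t, ht | ht⟩
    · have htm : t = m := by omega
      subst htm
      rw [ht] at hYn
      have e1 : 2 * t = t + t := by ring
      rw [e1] at hYn
      refine le_trans (Real.exp_le_exp.mpr ?_) hYn
      push_cast
      nlinarith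
    · have htm : t = m := by omega
      subst htm
      rw [ht] at hYn
      have h1 : Y (2 * t + 1) ≤ a 1 ^ 2 * Y (t + t) := by
        have := hY (t + t) 1
        rwa [show t + t + 1 = 2 * t + 1 by ring] at this
      have h2 : (Y (2 * t + 1) : ℝ) ≤ (a 1 : ℝ) ^ 2 * Y (t + t) := by exact_mod_cast h1
      have h3 : (a 1 : ℝ) ^ 2 = Real.exp (2 * A) := by
        have := Real.exp_nat_mul A 2
        push_cast at this
        rw [this, hA, Real.exp_log ha10]
      rw [h3] at h2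
      have h4 : Real.exp (2 * ((L - δ) * t)) ≤ Real.exp (2 * A) * Y (t + t) := by
        refine le_trans (le_trans (Real.exp_le_exp.mpr ?_) hYn) h2
        push_cast
        nlinarith
      rw [Real.exp_sub, div_le_iff₀ (Real.exp_pos _)]
      linarith
  refine ⟨m, hm1, ?_, ?_, ?_⟩
  · have h : (Λ : ℝ) * ((e : ℝ) ^ m * Y m) < Y (m + m) := by
      rw [hem]
      calc (Λ : ℝ) * (Real.exp (ε * m) * Y m)
          ≤ Real.exp B * (Real.exp (ε * m) * Real.exp ((L + δ) * m)) := by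
            refine mul_le_mul hB (mul_le_mul_of_nonneg_left hYm (Real.exp_pos _).le)
              (by positivity) (by positivity)
        _ = Real.exp (B + (ε * m + (L + δ) * m)) := by
            rw [Real.exp_add, Real.exp_add]
        _ < Real.exp (2 * ((L - δ) * m) - 2 * A) := by
            rw [Real.exp_lt_exp, hLe]
            nlinarith
        _ ≤ _ := hlow
    exact_mod_cast h
  · have h : (Λ : ℝ) * ((e : ℝ) ^ m * a m) * (Y m : ℝ) ^ 2 ≤ (Y (m + m) : ℝ) ^ 2 := by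
      rw [hem]
      have h1 : (Y m : ℝ) ^ 2 ≤ Real.exp ((L + δ) * m) ^ 2 :=
        pow_le_pow_left₀ (Nat.cast_nonneg _) hYm 2
      calc (Λ : ℝ) * (Real.exp (ε * m) * a m) * (Y m : ℝ) ^ 2
          ≤ Real.exp B * (Real.exp (ε * m) * Real.exp ((ε + δ) * m)) *
            Real.exp ((L + δ) * m) ^ 2 := by
            refine mul_le_mul (mul_le_mul hB (mul_le_mul_of_nonneg_left ham (Real.exp_pos _).le)
              ?_ ?_) h1 ?_ ?_ <;> positivity
        _ = Real.exp (B + (ε * m + (ε + δ) * m) + 2 * ((L + δ) * m)) := by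
            rw [Real.exp_add, Real.exp_add, Real.exp_add, ← Real.exp_nat_mul]
            push_cast
            rfl
        _ ≤ Real.exp (2 * (2 * ((L - δ) * m) - 2 * A)) := by
            rw [Real.exp_le_exp, hLe]
            nlinarith
        _ = Real.exp (2 * ((L - δ) * m) - 2 * A) ^ 2 := by
            rw [← Real.exp_nat_mul]
            push_cast
            rfl
        _ ≤ _ := pow_le_pow_left₀ (Real.exp_pos _).le hlow 2
    exact_mod_cast h
  · have h : (Λ : ℝ) * ((e : ℝ) ^ m * a m) ≤ (Y (m + m) : ℝ) := by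
      rw [hem]
      calc (Λ : ℝ) * (Real.exp (ε * m) * a m)
          ≤ Real.exp B * (Real.exp (ε * m) * Real.exp ((ε + δ) * m)) := by
            refine mul_le_mul hB (mul_le_mul_of_nonneg_left ham (Real.exp_pos _).le) ?_ ?_ <;>
              positivity
        _ = Real.exp (B + (ε * m + (ε + δ) * m)) := by
            rw [Real.exp_add, Real.exp_add]
        _ ≤ Real.exp (2 * ((L - δ) * m) - 2 * A) := by
            rw [Real.exp_le_exp, hLe]
            nlinarith
        _ ≤ _ := hlow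
    exact_mod_cast h

end Pool.Agent.H21.TXB
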