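import Pool.Agent.H18.TXB.Targets
import Pool.Agent.H33.TX.RLA
import Pool.Agent.H74.BKH.LGL
import Pool.Agent.H8.TX.Basic

/-!
# Row LLY of the board txb_modules: growth of the heights on a totally invariant curve of a
threefold (after `Pool.Agent.H74.BKH.pf_LGL`)
-/

set_option autoImplicit false

open MvPolynomial
open Pool.Agent.H12.ZD (pmap)
open Pool.Agent.H18.HIT Pool.Agent.H18.HX Pool.Agent.H18.VZ
open Pool.Agent.H8.ZA (HFam Const NA sz)
open Pool.Agent.H8.TD (lc dg Cop)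
open Pool.Agent.H8.TX
open Pool.Agent.H18.TE (lg Gc)
open Pool.Agent.H33.TX
open Pool.Agent.H74.BKH (lgl_mul lgl_pow lgl_hev_map lgl_hev_eq lgl_hev_hom lgl_fin lgl_tr lgl_alg)

namespace Pool.Agent.H21.TXB

open Pool.Agent.H18.TXB

/-- the height of a number -/
theorem lly_hn {K : IntermediateField ℚ Qb} (F : HFam K) (u : Qb) :
    hn F ![u] = F.ht ![u, 0, 0] := by
  unfold hn HFam.ht
  refine finsum_congr fun i => ?_
  rw [szn_one]
  have h1 : sz (F.abv i) ![u, 0, 0] = max 1 (F.abv i u) := by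
    show max 1 (max (F.abv i u) (max (F.abv i 0) (F.abv i 0))) = _
    rw [map_zero, max_self, max_eq_left ((F.abv i).nonneg u)]
  rw [h1]

/-! ## The inequality for one coordinate -/

/-- the conclusion for one coordinate -/
def OneX (I : Ideal (Po 5 Qb)) (T : Tup 5 Qb) (n : ℕ) (i j : Fin 5) : Prop :=
  ∃ (p : Po 5 Qb) (D' m' : ℕ) (μ : ℝ), p.IsHomogeneous D' ∧ p ∉ I ∧
    ∀ (K : IntermediateField ℚ Qb) (F : HFam K), ∃ c : ℝ, ∀ y : Fin 5 → Qb,
      (∀ q ∈ I, eval y q = 0) → y 1 ≠ 0 → (pmap T)^[n] y 1 ≠ 0 → eval y p ≠ 0 →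
      20 * F.ht ![af y i, 0, 0] + μ * (lg F (eval y p) -
        m' * lg F (y 1 * (pmap T)^[n] y 1)) ≤ F.ht ![af ((pmap T)^[n] y) j, 0, 0] + c

/-- a constant coordinate -/
theorem lly_const (I : Ideal (Po 5 Qb)) (hI : I.IsPrime) (T : Tup 5 Qb) (n : ℕ) (i j : Fin 5)
    (a : Qb) (ha : X i - C a * X 1 ∈ I) : OneX I T n i j := by
  refine ⟨1, 0, 0, 0, isHomogeneous_one _ _, (Ideal.ne_top_iff_one I).1 hI.ne_top, ?_⟩
  intro K F
  refine ⟨20 * F.ht ![a, 0, 0], ?_⟩
  intro y hy hy0 _ _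
  have h1 := hy _ ha
  rw [map_sub, map_mul, eval_X, eval_C, eval_X] at h1
  have h2 : af y i = a := by
    rw [af, div_eq_iff hy0]
    exact sub_eq_zero.1 h1
  rw [h2, zero_mul, add_zero]
  have h3 := Pool.Agent.H8.ZA.ht_nonneg F ![af ((pmap T)^[n] y) j, 0, 0]
  linarith

/-- a transcendental coordinate -/
theorem lly_one (hKCL : Pool.Agent.H18.TE.T_KCL) (I : Ideal (Po 5 Qb)) (T : Tup 5 Qb) (D : ℕ)
    (hT : ∀ i, (T i).IsHomogeneous D) {L : Type} [Field L] [Algebra Qb L]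
    (π : Po 5 Qb →ₐ[Qb] L) (hker : ∀ q, π q = 0 ↔ q ∈ I) (hx0 : π (X 1) ≠ 0)
    (hcurve : ∃ y : Kx π, FiniteDimensional (IntermediateField.adjoin Qb {y}) (Kx π))
    (n : ℕ) (i j : Fin 5) (hdn : π (it T n 1) ≠ 0) (φ : Kx π)
    (hφ : (φ : L) = π (it T n j) / π (it T n 1))
    (hu : Transcendental Qb (⟨xi π i, xi_mem π _⟩ : Kx π)) (hψ : Transcendental Qb φ)
    (hdg1 : 1 ≤ dg Qb {(⟨xi π i, xi_mem π _⟩ : Kx π)})
    (hdg : 189 * dg Qb {(⟨xi π i, xi_mem π _⟩ : Kx π)} ≤ dg Qb {φ}) :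
    OneX I T n i j := by
  set u : Kx π := ⟨xi π i, xi_mem π _⟩ with hudef
  let f0 : Po 2 Qb →ₐ[Qb] Kx π := aeval ![u, φ]
  let f : Po 2 Qb →ₐ[Qb] f0.range := f0.rangeRestrict
  have hfs : Function.Surjective f := f0.rangeRestrict_surjective
  have hf : ∀ P, ((f P : Kx π)) = aeval ![u, φ] P := fun P => rfl
  have hinj : Function.Injective (algebraMap f0.range (Kx π)) := Subtype.val_injective
  have h0 : algebraMap f0.range (Kx π) (f (X 0)) = u := by
    show ((f (X 0) : Kx π)) = u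
    rw [hf, aeval_X]
    rfl
  have h1 : algebraMap f0.range (Kx π) (f (X 1)) = φ := by
    show ((f (X 1) : Kx π)) = φ
    rw [hf, aeval_X]
    rfl
  have hu' : Transcendental Qb (f (X 0)) := by
    intro h
    apply hu
    rw [← h0]
    exact h.algebraMap
  have hψ' : Transcendental Qb (f (X 1)) := by
    intro h
    apply hψ
    rw [← h1]
    exact h.algebraMap
  obtain ⟨b, μ, -, hb0, hb⟩ := hKCL f0.range (Kx π) (f (X 0)) (f (X 1)) hinj hcurve hu' hψ'
  rw [h0, h1] at hb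
  obtain ⟨P, rfl⟩ := hfs b
  -- the homogenization
  let δ : Po 5 Qb := X 1 * it T n 1
  let Rr : Fin 2 → Po 5 Qb := ![X i * it T n 1, it T n j * X 1]
  have hδπ : π δ ≠ 0 := by
    rw [map_mul]
    exact mul_ne_zero hx0 hdn
  have hπ : ∀ Q : Po 2 Qb, π (hev Rr δ Q.totalDegree Q) =
      π δ ^ Q.totalDegree * ((f Q : Kx π) : L) := by
    intro Q
    rw [lgl_hev_map, lgl_hev_eq (fun k => π (Rr k)) (![xi π i, π (it T n j) /
      π (it T n 1)]) (π δ) Q.totalDegree Q le_rfl]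
    · congr 1
      have h2 := MvPolynomial.aeval_algebraMap_apply L (![u, φ] : Fin 2 → Kx π) Q
      rw [hf]
      have h3 : (fun k => algebraMap (Kx π) L ((![u, φ] : Fin 2 → Kx π) k)) =
          ![xi π i, π (it T n j) / π (it T n 1)] := by
        funext k
        fin_cases k
        · rfl
        · exact hφ
      rw [← h3]
      exact h2
    · intro k
      fin_cases k
      · show π (X i * it T n 1) = xi π i * π (X 1 * it T n 1)
        rw [map_mul, map_mul]
        unfold xi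
        field_simp
      · show π (it T n j * X 1) = π (it T n j) / π (it T n 1) * π (X 1 * it T n 1)
        rw [map_mul, map_mul]
        field_simp
  have hith := it_hom hT n
  have hδh : δ.IsHomogeneous (1 + D ^ n) := (isHomogeneous_X _ _).mul (hith 1)
  have hRh : ∀ k, (Rr k).IsHomogeneous (1 + D ^ n) := by
    intro k
    fin_cases k
    · exact (isHomogeneous_X _ _).mul (hith 1)
    · have h2 := (hith j).mul (isHomogeneous_X Qb (1 : Fin 5))
      rw [add_comm] at h2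
      exact h2
  have hev' : ∀ y : Fin 5 → Qb, y 1 ≠ 0 → (pmap T)^[n] y 1 ≠ 0 → ∀ Q : Po 2 Qb,
      eval y (hev Rr δ Q.totalDegree Q) = (y 1 * (pmap T)^[n] y 1) ^ Q.totalDegree *
        aeval ![af y i, af ((pmap T)^[n] y) j] Q := by
    intro y hy0 hyn Q
    have h4 : ∀ l, eval y (it T n l) = (pmap T)^[n] y l := by
      intro l
      rw [← pmap_it]
      rfl
    have h2 := lgl_hev_map (aeval y : Po 5 Qb →ₐ[Qb] Qb) Rr δ Q.totalDegree Q
    have h5 : ∀ q : Po 5 Qb, (aeval y : Po 5 Qb →ₐ[Qb] Qb) q = eval y q := fun q => rfl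
    rw [h5, lgl_hev_eq _ (![af y i, af ((pmap T)^[n] y) j]) _ Q.totalDegree Q le_rfl] at h2
    · rw [h2, h5]
      show eval y (X 1 * it T n 1) ^ _ * _ = _
      rw [map_mul, eval_X, h4]
    · intro k
      fin_cases k
      · show eval y (X i * it T n 1) = y i / y 1 * eval y (X 1 * it T n 1)
        rw [map_mul, map_mul, eval_X, eval_X]
        field_simp
      · show eval y (it T n j * X 1) = (pmap T)^[n] y j / (pmap T)^[n] y 1 *
          eval y (X 1 * it T n 1)
        rw [map_mul, map_mul, eval_X, h4, h4]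
        field_simp
  set m := P.totalDegree with hm
  refine ⟨hev Rr δ m P, (1 + D ^ n) * m, m,
    μ / (9 * dg Qb {u}), lgl_hev_hom _ _ _ _ _ le_rfl hRh hδh, ?_, ?_⟩
  · rw [← hker, hπ]
    refine mul_ne_zero (pow_ne_zero _ hδπ) ?_
    intro h2
    apply hb0
    apply hinj
    rw [map_zero]
    exact Subtype.val_injective h2
  intro K' F
  obtain ⟨c, hc⟩ := hb K' F
  refine ⟨c / (9 * dg Qb {u}), ?_⟩
  intro y hy hy0 hyn hyp
  let g : Po 2 Qb →ₐ[Qb] Qb := aeval ![af y i, af ((pmap T)^[n] y) j]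
  have hkerg : ∀ Q ∈ RingHom.ker f, g Q = 0 := by
    intro Q hQ
    have hQ0 : f Q = 0 := hQ
    have h2 : hev Rr δ Q.totalDegree Q ∈ I := by
      rw [← hker, hπ, hQ0]
      simp
    have h3 := hy _ h2
    rw [hev' y hy0 hyn] at h3
    exact (mul_eq_zero.1 h3).resolve_left (pow_ne_zero _ (mul_ne_zero hy0 hyn))
  let ev : f0.range →ₐ[Qb] Qb := (Ideal.Quotient.liftₐ (RingHom.ker f) g hkerg).comp
    (Ideal.quotientKerAlgEquivOfSurjective hfs).symm.toAlgHom
  have hevf : ∀ Q, ev (f Q) = g Q := by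
    intro Q
    have h2 : (Ideal.quotientKerAlgEquivOfSurjective hfs).symm (f Q) =
        Ideal.Quotient.mk (RingHom.ker f) Q := by
      rw [AlgEquiv.symm_apply_eq]
      rfl
    show (Ideal.Quotient.liftₐ (RingHom.ker f) g hkerg)
      ((Ideal.quotientKerAlgEquivOfSurjective hfs).symm (f Q)) = g Q
    rw [h2]
    rfl
  have hval := hev' y hy0 hyn P
  have hgP : g P ≠ 0 := by
    intro h2
    apply hyp
    rw [hval]
    show _ * g P = 0
    rw [h2, mul_zero]
  have h2 := hc ev (by rw [hevf]; exact hgP)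
  rw [hevf, hevf, hevf] at h2
  have h3 : g (X 0) = af y i := aeval_X _ _
  have h4 : g (X 1) = af ((pmap T)^[n] y) j := aeval_X _ _
  rw [h3, h4] at h2
  have h5 : lg F (eval y (hev Rr δ m P)) =
      m * lg F (y 1 * (pmap T)^[n] y 1) + lg F (g P) := by
    rw [hval, lgl_mul F (pow_ne_zero _ (mul_ne_zero hy0 hyn)) hgP,
      lgl_pow F (mul_ne_zero hy0 hyn)]
  rw [h5]
  have h6 := Pool.Agent.H8.ZA.ht_nonneg F ![af y i, 0, 0]
  have h7 : (189 : ℝ) * dg Qb {u} ≤ dg Qb {φ} := by exact_mod_cast hdg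
  have h8 : (1 : ℝ) ≤ dg Qb {u} := by exact_mod_cast hdg1
  have h9 : (0 : ℝ) < 9 * dg Qb {u} := by linarith
  have h10 : (20 * (9 * (dg Qb {u} : ℝ))) * F.ht ![af y i, 0, 0] ≤
      ((dg Qb {φ} : ℝ) - 9 * dg Qb {u}) * F.ht ![af y i, 0, 0] :=
    mul_le_mul_of_nonneg_right (by linarith) h6
  have h11 : 20 * F.ht ![af y i, 0, 0] + μ / (9 * dg Qb {u}) *
      (m * lg F (y 1 * (pmap T)^[n] y 1) + lg F (g P) - m * lg F (y 1 * (pmap T)^[n] y 1)) =
      (20 * (9 * (dg Qb {u} : ℝ)) * F.ht ![af y i, 0, 0] + μ * lg F (g P)) /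
        (9 * dg Qb {u}) := by
    field_simp
    ring
  have h12 : F.ht ![af ((pmap T)^[n] y) j, 0, 0] + c / (9 * dg Qb {u}) =
      (9 * dg Qb {u} * F.ht ![af ((pmap T)^[n] y) j, 0, 0] + c) / (9 * dg Qb {u}) := by
    field_simp
  rw [h11, h12]
  exact div_le_div_of_nonneg_right (by linarith) h9.le

theorem pf_LLY (hKCL : Pool.Agent.H18.TE.T_KCL) (hPBK : Pool.Agent.H8.TD.T_PBK)
    (hSLR : Pool.Agent.H18.TE.T_SLR) (hIDG : Pool.Agent.H18.TE.T_IDG)
    (hCTD : Pool.Agent.H8.TD.T_CTD) : T_LLY := by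
  intro P θ Δ I T D E S S' hI hD hT hom hX1 hmon hPI hTI hP hΔ hdeg hind hS hS' hS0 hS0' hrel
  obtain ⟨L, _, _, π, hker, hfr, hext⟩ := rla_setup I hI
  have hx0 : π (X 1) ≠ 0 := fun h0 => hX1 ((hker _).1 h0)
  have htr : Transcendental (Kx π) (π (X 1)) := by
    apply rla_tr π hx0
    intro c hc
    exact hext (fun i => C c * X i) (rla_hom_iff I hom c hc)
  obtain ⟨τ, hτ⟩ := hext T hTI
  obtain ⟨τ₀, hτ₀⟩ := rla_tau0 π hx0 T D hT τ hτ
  obtain ⟨hfin, hle⟩ := rla_deg π hfr T τ hτ P θ Δ E ((hker _).2 hPI) hP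
    (fun h0 => hΔ ((hker _).1 h0))
  have hT0 : π (T 1) ≠ 0 := by
    intro h0
    apply hX1
    rw [← hTI, aeval_X]
    exact (hker _).1 h0
  have hT0' : π (T 1) = π (X 1) ^ D * aeval (xi π) (T 1) := rla_hom_val π hx0 _ D (hT 1)
  have hw : (⟨aeval (xi π) (T 1), rla_aeval_mem π (T 1)⟩ : Kx π) ≠ 0 := by
    intro h0
    have h1 : aeval (xi π) (T 1) = 0 := congrArg (fun z : Kx π => (z : L)) h0
    rw [h1, mul_zero] at hT0'
    exact hT0 hT0'
  have hτs : τ (π (X 1)) = π (X 1) ^ D * algebraMap (Kx π) L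
      ⟨aeval (xi π) (T 1), rla_aeval_mem π (T 1)⟩ := by
    rw [hτ, aeval_X]
    exact hT0'
  obtain ⟨hfin0, -⟩ := Pool.Agent.H60.TD.pf_SL1 Qb (Kx π) L τ₀ τ (π (X 1))
    ⟨aeval (xi π) (T 1), rla_aeval_mem π (T 1)⟩ D hD htr (rla_gen π hx0 hfr) hw
    (fun x => hτ₀ x) hτs hfin
  have hq : 2 ≤ Module.finrank τ₀.fieldRange (Kx π) := by
    have h1 := hIDG 5 E Qb L π hfr T τ hτ hfin θ (by
      intro g hg i
      rw [hker]
      exact hind g ((hker _).1 hg) i)
    have h2 := hSLR Qb (Kx π) L τ₀ τ (π (X 1))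
      ⟨aeval (xi π) (T 1), rla_aeval_mem π (T 1)⟩ D hD (rla_gen π hx0 hfr) hw
      (fun x => hτ₀ x) hτs hfin0
    have h3 : D * 2 ≤ D * Module.finrank τ₀.fieldRange (Kx π) := by
      rw [mul_comm D 2]
      exact hdeg.trans (h1.trans h2)
    exact Nat.le_of_mul_le_mul_left h3 hD
  have htd := rla_trdeg hCTD π hfr htr P hmon ((hker _).2 hPI) S S' ((hker _).2 hS)
    ((hker _).2 hS') hS0 hS0' hrel
  have hcurve := rla_curve (k := Qb) (K := Kx π) _ (Set.finite_range _) (rla_Kgen π) htd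
  -- the iterates
  have hit : ∀ n : ℕ, ∀ q, τ^[n] (π q) = π (aeval (it T n) q) := by
    intro n
    induction n with
    | zero =>
      intro q
      rw [it_zero, show (fun i => X i : Tup 5 Qb) = X from rfl, aeval_X_left_apply]
      rfl
    | succ n ih =>
      intro q
      rw [Function.iterate_succ_apply', ih, hτ, it_succ', aeval_comp]
  have hit0 : ∀ n : ℕ, ∀ z : Kx π, ((τ₀^[n] z : Kx π) : L) = τ^[n] (z : L) := by
    intro n
    induction n with
    | zero => intro z; rfl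
    | succ n ih =>
      intro z
      rw [Function.iterate_succ_apply, Function.iterate_succ_apply, ih, hτ₀]
  have hdn : ∀ n : ℕ, π (it T n 1) ≠ 0 := by
    intro n
    have h1 := hit n (X 1)
    rw [aeval_X] at h1
    rw [← h1]
    intro h2
    apply hx0
    have h3 : Function.Injective τ^[n] := (RingHom.injective τ.toRingHom).iterate n
    apply h3
    rw [h2]
    exact (Function.iterate_fixed (map_zero τ) n).symm
  have hmulit : ∀ n : ℕ, ∀ a b : L, τ^[n] a * τ^[n] b = τ^[n] (a * b) := by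
    intro n
    induction n with
    | zero => intro a b; rfl
    | succ n ih =>
      intro a b
      rw [Function.iterate_succ_apply', Function.iterate_succ_apply',
        Function.iterate_succ_apply', ← map_mul, ih]
  have hφ : ∀ n : ℕ, ∀ i : Fin 5, τ^[n] (xi π i) = π (it T n i) / π (it T n 1) := by
    intro n i
    rw [eq_div_iff (hdn n)]
    have h1 : π (it T n i) = τ^[n] (π (X i)) := by rw [hit, aeval_X]
    have h2 : π (it T n 1) = τ^[n] (π (X 1)) := by rw [hit, aeval_X]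
    rw [h1, h2, hmulit]
    congr 1
    unfold xi
    rw [div_mul_cancel₀ _ hx0]
  -- the coordinates
  have halgc : ∀ i : Fin 5, IsAlgebraic Qb (⟨xi π i, xi_mem π _⟩ : Kx π) →
      ∀ (n : ℕ) (j : Fin 5), OneX I T n i j := by
    intro i hi n j
    obtain ⟨a, ha⟩ := lgl_alg _ hi
    refine lly_const I hI T n i j a ?_
    rw [← hker, map_sub, map_mul]
    have h1 : xi π i = algebraMap Qb L a := by
      have h2 := congrArg (fun z : Kx π => (z : L)) ha
      exact h2.symm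
    have h3 : π (C a) = algebraMap Qb L a := AlgHom.commutes π a
    rw [h3, ← h1]
    unfold xi
    rw [div_mul_cancel₀ _ hx0, sub_self]
  have hmain : ∃ (n : ℕ) (j : Fin 5), 1 ≤ n ∧ ∀ i, OneX I T n i j := by
    by_cases hall : ∀ i : Fin 5, IsAlgebraic Qb (⟨xi π i, xi_mem π _⟩ : Kx π)
    · exact ⟨1, 0, le_rfl, fun i => halgc i (hall i) 1 0⟩
    · push Not at hall
      obtain ⟨j, hj⟩ := hall
      set uj : Kx π := ⟨xi π j, xi_mem π _⟩ with huj
      set B : ℕ := ∑ i : Fin 5, dg Qb {(⟨xi π i, xi_mem π _⟩ : Kx π)} with hB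
      refine ⟨189 * B + 1, j, by omega, fun i => ?_⟩
      by_cases hi : IsAlgebraic Qb (⟨xi π i, xi_mem π _⟩ : Kx π)
      · exact halgc i hi _ j
      have hdgpos : ∀ y : Kx π, Transcendental Qb y → 1 ≤ dg Qb {y} := by
        intro y hy
        have h1 := lgl_fin (k := Qb) (K := Kx π) _ (Set.finite_range _) (rla_Kgen π) htd y hy
        exact Module.finrank_pos
      have hphi : ((τ₀^[189 * B + 1] uj : Kx π) : L) =
          π (it T (189 * B + 1) j) / π (it T (189 * B + 1) 1) := by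
        rw [hit0]
        exact hφ _ _
      refine lly_one hKCL I T D hT π hker hx0 hcurve (189 * B + 1) i j (hdn _)
        (τ₀^[189 * B + 1] uj) hphi hi (lgl_tr τ₀ _ uj hj) (hdgpos _ hi) ?_
      have h1 := hPBK Qb (Kx π) τ₀ (189 * B + 1) {uj}
      rw [Set.image_singleton] at h1
      rw [h1]
      have h2 : dg Qb {(⟨xi π i, xi_mem π _⟩ : Kx π)} ≤ B :=
        Finset.single_le_sum (f := fun i : Fin 5 =>
          dg Qb {(⟨xi π i, xi_mem π _⟩ : Kx π)}) (fun _ _ => Nat.zero_le _)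
          (Finset.mem_univ i)
      have h3 : 189 * B + 1 < 2 ^ (189 * B + 1) := Nat.lt_two_pow_self
      have h4 : 2 ^ (189 * B + 1) ≤
          Module.finrank τ₀.fieldRange (Kx π) ^ (189 * B + 1) := Nat.pow_le_pow_left hq _
      have h5 := hdgpos uj hj
      calc 189 * dg Qb {(⟨xi π i, xi_mem π _⟩ : Kx π)} ≤
            Module.finrank τ₀.fieldRange (Kx π) ^ (189 * B + 1) * 1 := by omega
        _ ≤ _ := Nat.mul_le_mul_left _ h5
  obtain ⟨n, j, hn', hone⟩ := hmain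
  choose p D' m' μ hph hpI hc using hone
  refine ⟨n, p, D', m', fun i => μ i / 5, hn', hph, hpI, ?_⟩
  intro K F
  choose c hcc using fun i => hc i K F
  refine ⟨(∑ i, c i) / 5, ?_⟩
  intro y hy hy0 hyn hyp
  have e0 := fun i => hcc i y hy hy0 hyn (hyp i)
  have h1 := hn_le_sum F (af y)
  have h2 := hn_coord F (af ((pmap T)^[n] y)) j
  rw [lly_hn] at h2
  have h3 : ∑ i : Fin 5, hn F ![af y i] = ∑ i : Fin 5, F.ht ![af y i, 0, 0] :=
    Finset.sum_congr rfl fun i _ => lly_hn F _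
  rw [h3] at h1
  have h4 := Finset.sum_le_sum fun (i : Fin 5) (_ : i ∈ Finset.univ) => e0 i
  rw [Finset.sum_add_distrib, Finset.sum_add_distrib, ← Finset.mul_sum, Finset.sum_const,
    Finset.card_univ, Fintype.card_fin, nsmul_eq_mul] at h4
  have h5 : ∑ i : Fin 5, μ i / 5 * (lg F (eval y (p i)) - m' i * lg F (y 1 * (pmap T)^[n] y 1)) =
      (∑ i : Fin 5, μ i * (lg F (eval y (p i)) - m' i * lg F (y 1 * (pmap T)^[n] y 1))) / 5 := by
    rw [Finset.sum_div]
    refine Finset.sum_congr rfl fun i _ => ?_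
    ring
  rw [h5]
  push_cast at h4
  linarith

end Pool.Agent.H21.TXB
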